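import Mathlib
import Pool.Agent.Q288.UrnCT.Bridge
import Pool.Agent.Q288.UrnCT.Graphs

/-! # Coexistence in the competing urn scheme on hypercubes and tori

The analytic part is the theorem `sbc_not_inClass` of the starting files (hand-in
`MP_747d65_pr.StrictlyBalanced`), for the discrete-time process. New here: strictly balanced
configurations with three colours on hypercubes and tori, and the passage to continuous time. -/

set_option autoImplicit false

namespace Pool.Agent.Results.MP_d3f74f_pr.CoexistOnCubesTori

open MeasureTheory Filter Q288.UrnCT Pool.Agent.TH996.Urn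

/-- For every `K ≥ 3` the scheme with `K` types does not always have a single surviving type on the
hypercubes `Q_n`, `n ≥ 5`, and on the tori of dimension `d ≥ 3` whose side is a multiple of `4`.
(The first part records that the scheme does not explode, on any finite graph.) -/
theorem result :
    (∀ (V : Type) [Fintype V] (G : SimpleGraph V) (K : ℕ) (x₀ : Config V K),
      ∀ᵐ ω ∂(urnLaw G x₀), Tendsto (fun k => (ω k).2) atTop atTop) ∧
    ∀ K : ℕ, 3 ≤ K →
      (∀ n : ℕ, 5 ≤ n → ¬ AlwaysSingle (hypercube n) K) ∧
      (∀ d N : ℕ, ∀ [NeZero N], 3 ≤ d → 4 ∣ N → ¬ AlwaysSingle (torus d N) K) := by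
  refine ⟨fun V _ G K x₀ => no_explosion G x₀, fun K hK => ⟨fun n hn => ?_, fun d N _ hd hN => ?_⟩⟩
  · exact not_always_of_not_inClass _ (cube_not_inClass K hK n hn)
  · exact not_always_of_not_inClass _ (torus_not_inClass K hK d N hd hN)

end Pool.Agent.Results.MP_d3f74f_pr.CoexistOnCubesTori
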